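import Pool.Agent.Lib_helper13.Robin.Geo

/-!
# Robin project, block S1: facet integrals
-/

namespace Pool.Agent.Lib_helper82.Robin

open Pool.Agent.Lib_helper13.Robin
open MeasureTheory Set Metric Filter Topology
open scoped RealInnerProductSpace ContDiff

noncomputable section

variable {d m : ℕ} (P : PD d m)

/-- parametrisation of the hyperplane `⟪n,x⟫ = b` -/
def psi (n : E d) (b : ℝ) (y : (ℝ ∙ n)ᗮ) : E d := (y : E d) + b • n

theorem psi_isometry (n : E d) (b : ℝ) : Isometry (psi n b) := by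
  apply Isometry.of_dist_eq
  intro x y
  unfold psi
  rw [dist_add_right]
  rfl

theorem psi_embedding (n : E d) (b : ℝ) : MeasurableEmbedding (psi n b) :=
  (psi_isometry n b).isClosedEmbedding.measurableEmbedding

theorem psi_range (n : E d) (hn : ‖n‖ = 1) (b : ℝ) :
    range (psi n b) = {x | ⟪n, x⟫ = b} := by
  have hnn : ⟪n, n⟫ = 1 := by rw [real_inner_self_eq_norm_sq, hn]; norm_num
  ext x
  constructor
  · rintro ⟨y, rfl⟩
    have := Submodule.mem_orthogonal_singleton_iff_inner_right.1 y.2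
    change ⟪n, (y : E d) + b • n⟫ = b
    rw [inner_add_right, this, inner_smul_right, hnn]; ring
  · intro hx
    have hx' : ⟪n, x⟫ = b := hx
    refine ⟨⟨x - b • n, ?_⟩, ?_⟩
    · rw [Submodule.mem_orthogonal_singleton_iff_inner_right, inner_sub_right, hx',
        inner_smul_right, hnn]; ring
    · simp [psi]

theorem finrank_orth (n : E d) (hn : ‖n‖ = 1) : Module.finrank ℝ (ℝ ∙ n)ᗮ = d - 1 := by
  have h := (ℝ ∙ n).finrank_add_finrank_orthogonal
  have hn0 : n ≠ 0 := by rintro rfl; simp at hn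
  rw [finrank_span_singleton hn0] at h
  simp only [finrank_euclideanSpace, Fintype.card_fin] at h
  omega

theorem map_psi (n : E d) (hn : ‖n‖ = 1) (b : ℝ) :
    (volume : Measure (ℝ ∙ n)ᗮ).map (psi n b) =
      (μHE[d - 1] : Measure (E d)).restrict {x | ⟪n, x⟫ = b} := by
  rw [← psi_range n hn b, ← (psi_isometry n b).map_euclideanHausdorffMeasure,
    ← InnerProductSpace.euclideanHausdorffMeasure_eq_volume, finrank_orth n hn]

theorem measure_sub (n : E d) (hn : ‖n‖ = 1) (b : ℝ) (S : Set (E d))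
    (h : S ⊆ {x | ⟪n, x⟫ = b}) :
    μHE[d - 1] S = volume {y : (ℝ ∙ n)ᗮ | (y : E d) + b • n ∈ S} := by
  have h1 := (psi_embedding n b).map_apply (volume : Measure (ℝ ∙ n)ᗮ) S
  rw [map_psi n hn b, Measure.restrict_apply' (by
    exact (isClosed_eq (by fun_prop) continuous_const).measurableSet),
    inter_eq_left.2 h] at h1
  exact h1

theorem isClosed_Sig (i : Fin m) : IsClosed (P.Sig i) :=
  P.isClosed_cl.inter (isClosed_eq (by fun_prop) continuous_const)

theorem Sig_sub_cl (i : Fin m) : P.Sig i ⊆ P.cl := fun _ hx => hx.1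

theorem isCompact_Sig (i : Fin m) : IsCompact (P.Sig i) :=
  P.isCompact_cl.of_isClosed_subset (isClosed_Sig P i) (Sig_sub_cl P i)

theorem frontier_eq_iUnion : frontier P.Om = ⋃ i, P.Sig i := by
  rw [P.frontier_Om]
  ext x
  simp only [mem_iUnion]
  constructor
  · rintro ⟨h1, i, h2⟩; exact ⟨i, h1, h2⟩
  · rintro ⟨i, h1, h2⟩; exact ⟨h1, i, h2⟩

/-- **S1.** Facet integrals as integrals over the hyperplane. -/
theorem fi_eq (i : Fin m) (f : E d → ℝ) :
    P.fi i f = ∫ y : (ℝ ∙ P.ν i)ᗮ, (P.Sig i).indicator f ((y : E d) + P.b i • P.ν i) := by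
  have hm : MeasurableSet (P.Sig i) := (isClosed_Sig P i).measurableSet
  have h1 := (psi_embedding (P.ν i) (P.b i)).integral_map (μ := (volume : Measure (ℝ ∙ P.ν i)ᗮ))
    ((P.Sig i).indicator f)
  rw [map_psi (P.ν i) (P.unit i) (P.b i), integral_indicator hm,
    Measure.restrict_restrict hm,
    inter_eq_left.2 (show P.Sig i ⊆ {x | ⟪P.ν i, x⟫ = P.b i} from fun x hx => hx.2)] at h1
  exact h1

/-- **S1.** -/
theorem Sig_lt_top (i : Fin m) : μHE[d - 1] (P.Sig i) < ⊤ := by
  rw [measure_sub (P.ν i) (P.unit i) (P.b i) (P.Sig i) (fun x hx => hx.2)]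
  have h1 : IsCompact ((psi (P.ν i) (P.b i)) ⁻¹' (P.Sig i)) :=
    (psi_isometry (P.ν i) (P.b i)).isClosedEmbedding.isCompact_preimage (isCompact_Sig P i)
  exact h1.measure_lt_top

/-- **S1.** two different facets overlap in a null set -/
theorem Sig_inter (i j : Fin m) (h : i ≠ j) :
    volume {y : (ℝ ∙ P.ν i)ᗮ | (y : E d) + P.b i • P.ν i ∈ P.Sig i ∩ P.Sig j} = 0 ∧
    μHE[d - 1] (P.Sig i ∩ P.Sig j) = 0 := by
  have h1 : volume {y : (ℝ ∙ P.ν i)ᗮ | (y : E d) + P.b i • P.ν i ∈ P.Sig i ∩ P.Sig j} = 0 := by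
    let S : AffineSubspace ℝ (ℝ ∙ P.ν i)ᗮ :=
      { carrier := {y | ⟪P.ν j, (y : E d) + P.b i • P.ν i⟫ = P.b j}
        smul_vsub_vadd_mem' := by
          intro c p1 p2 p3 h1 h2 h3
          have h1' : ⟪P.ν j, (p1 : E d) + P.b i • P.ν i⟫ = P.b j := h1
          have h2' : ⟪P.ν j, (p2 : E d) + P.b i • P.ν i⟫ = P.b j := h2
          have h3' : ⟪P.ν j, (p3 : E d) + P.b i • P.ν i⟫ = P.b j := h3
          change ⟪P.ν j, ((c • (p1 -ᵥ p2) +ᵥ p3 : (ℝ ∙ P.ν i)ᗮ) : E d) + P.b i • P.ν i⟫ = P.b j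
          rw [vsub_eq_sub, vadd_eq_add, Submodule.coe_add, Submodule.coe_smul, Submodule.coe_sub]
          rw [inner_add_right] at *
          rw [inner_add_right, inner_smul_right, inner_sub_right]
          have : ⟪P.ν j, (p1 : E d)⟫ - ⟪P.ν j, (p2 : E d)⟫ = 0 := by linarith
          rw [this]; linarith }
    have hS : S ≠ ⊤ := by
      intro hT
      obtain ⟨x, hx1, hx2⟩ := P.irr i
      have hr : x ∈ range (psi (P.ν i) (P.b i)) := by
        rw [psi_range _ (P.unit i)]; exact hx1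
      obtain ⟨y, hy⟩ := hr
      have hyS : y ∈ S := by rw [hT]; trivial
      have hyS' : ⟪P.ν j, psi (P.ν i) (P.b i) y⟫ = P.b j := hyS
      rw [hy] at hyS'
      exact absurd hyS' (hx2 j (Ne.symm h)).ne
    refine measure_mono_null ?_ (Measure.addHaar_affineSubspace volume S hS)
    intro y hy
    exact hy.2.2
  refine ⟨h1, ?_⟩
  rw [measure_sub (P.ν i) (P.unit i) (P.b i) (P.Sig i ∩ P.Sig j) (fun x hx => hx.1.2)]
  exact h1

/-- **S1.** -/
theorem bdI_eq (f : E d → ℝ) (hf : ContinuousOn f P.cl) : P.bdI f = ∑ i, P.fi i f := by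
  unfold PD.bdI PD.fi
  rw [frontier_eq_iUnion P, integral_iUnion_ae, tsum_fintype]
  · exact fun i => (isClosed_Sig P i).measurableSet.nullMeasurableSet
  · intro i j hij
    exact (Sig_inter P i j hij).2
  · refine hf.integrableOn_of_subset_isCompact P.isCompact_cl
      (MeasurableSet.iUnion fun i => (isClosed_Sig P i).measurableSet)
      (iUnion_subset fun i => Sig_sub_cl P i) ?_
    refine ne_of_lt (lt_of_le_of_lt (measure_iUnion_le _) ?_)
    rw [tsum_fintype]
    exact ENNReal.sum_lt_top.2 fun i _ => Sig_lt_top P i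

end

end Pool.Agent.Lib_helper82.Robin
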