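import Pool.Agent.Lib_helper82.Robin.S0
import Pool.Agent.Lib_helper82.Robin.S1

/-!
# Robin project, block S2: Gauss-Green on the polyhedron
-/

namespace Pool.Agent.Lib_helper82.Robin

open Pool.Agent.Lib_helper13.Robin
open MeasureTheory Set Metric Filter Topology
open scoped RealInnerProductSpace ContDiff

noncomputable section

variable {d m : ℕ} (P : PD d m)

theorem mp_tau (b : ℝ) {ε : ℝ} (hε : 0 < ε) :
    MeasurePreserving (fun s : ℝ => b - ε * (s + 1)) volume
      (ENNReal.ofReal ε⁻¹ • (volume : Measure ℝ)) := by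
  have h1 := Real.map_volume_mul_left (neg_ne_zero.2 hε.ne')
  have h2 := map_add_left_eq_self (volume : Measure ℝ) (b - ε)
  refine ⟨by fun_prop, ?_⟩
  have e : (fun s : ℝ => b - ε * (s + 1)) = (fun s => (b - ε) + s) ∘ (fun s => -ε * s) := by
    funext s; simp only [Function.comp]; ring
  rw [e, ← Measure.map_map (by fun_prop) (by fun_prop), h1, Measure.map_smul, h2]
  congr 2
  rw [abs_inv, abs_neg, abs_of_pos hε]

theorem phi_mp (n : E d) (hn : ‖n‖ = 1) (b : ℝ) {ε : ℝ} (hε : 0 < ε) :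
    MeasurePreserving (fun p : (ℝ ∙ n)ᗮ × ℝ => ((p.1 : E d) + (b - ε * (p.2 + 1)) • n))
      volume (ENNReal.ofReal ε⁻¹ • (volume : Measure (E d))) := by
  have h1 : MeasurePreserving (Prod.map (id : (ℝ ∙ n)ᗮ → (ℝ ∙ n)ᗮ) (fun s : ℝ => b - ε * (s + 1)))
      ((volume : Measure (ℝ ∙ n)ᗮ).prod (volume : Measure ℝ))
      ((volume : Measure (ℝ ∙ n)ᗮ).prod (ENNReal.ofReal ε⁻¹ • (volume : Measure ℝ))) :=
    (MeasurePreserving.id _).prod (mp_tau b hε)
  rw [Measure.prod_smul_right] at h1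
  have h2 := (mp_hyper n hn).smul_measure (ENNReal.ofReal ε⁻¹)
  exact h2.comp h1

theorem phi_int (n : E d) (hn : ‖n‖ = 1) (b : ℝ) {ε : ℝ} (hε : 0 < ε) (G : E d → ℝ) :
    ∫ p : (ℝ ∙ n)ᗮ × ℝ, G ((p.1 : E d) + (b - ε * (p.2 + 1)) • n) = ε⁻¹ * ∫ x, G x := by
  have hnn : ⟪n, n⟫ = 1 := by rw [real_inner_self_eq_norm_sq, hn]; norm_num
  have hemb : MeasurableEmbedding
      (fun p : (ℝ ∙ n)ᗮ × ℝ => ((p.1 : E d) + (b - ε * (p.2 + 1)) • n)) := by
    apply Continuous.measurableEmbedding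
    · fun_prop
    · rintro ⟨y, s⟩ ⟨y', s'⟩ h
      simp only at h
      have hy := Submodule.mem_orthogonal_singleton_iff_inner_right.1 y.2
      have hy' := Submodule.mem_orthogonal_singleton_iff_inner_right.1 y'.2
      have h2 : ⟪n, (y : E d) + (b - ε * (s + 1)) • n⟫ = ⟪n, (y' : E d) + (b - ε * (s' + 1)) • n⟫ := by
        rw [h]
      rw [inner_add_right, inner_add_right, inner_smul_right, inner_smul_right, hnn, hy, hy'] at h2
      have h3 : s = s' := by
        have : ε * (s - s') = 0 := by linarith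
        rcases mul_eq_zero.1 this with h | h
        · exact absurd h hε.ne'
        · linarith
      subst h3
      have h4 : (y : E d) = y' := by simpa using h
      rw [Subtype.ext h4]
  rw [(phi_mp n hn b hε).integral_comp hemb G, integral_smul_measure,
    ENNReal.toReal_ofReal (by positivity), smul_eq_mul]

/-- derivative of the smooth transition -/
def dk (s : ℝ) : ℝ := deriv Real.smoothTransition s

theorem dk_continuous : Continuous dk :=
  (Real.smoothTransition.contDiff (n := 1)).continuous_deriv (by norm_num)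

theorem dk_neg {s : ℝ} (h : s < 0) : dk s = 0 := by
  have : Real.smoothTransition =ᶠ[𝓝 s] fun _ => (0 : ℝ) := by
    filter_upwards [Iio_mem_nhds h] with t ht
    exact Real.smoothTransition.zero_of_nonpos (le_of_lt ht)
  unfold dk; rw [this.deriv_eq]; simp

theorem dk_one_lt {s : ℝ} (h : 1 < s) : dk s = 0 := by
  have : Real.smoothTransition =ᶠ[𝓝 s] fun _ => (1 : ℝ) := by
    filter_upwards [Ioi_mem_nhds h] with t ht
    exact Real.smoothTransition.one_of_one_le (le_of_lt ht)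
  unfold dk; rw [this.deriv_eq]; simp

theorem dk_support {s : ℝ} (h : s ∉ Icc (0 : ℝ) 1) : dk s = 0 := by
  rw [mem_Icc, not_and_or] at h
  rcases h with h | h
  · exact dk_neg (not_le.1 h)
  · exact dk_one_lt (not_le.1 h)

theorem dk_bdd : ∃ M : ℝ, 0 ≤ M ∧ ∀ s, |dk s| ≤ M := by
  obtain ⟨M, hM⟩ := isCompact_Icc.exists_bound_of_continuousOn (s := Icc (0 : ℝ) 1)
    dk_continuous.continuousOn
  refine ⟨max M 0, le_max_right _ _, fun s => ?_⟩
  by_cases hs : s ∈ Icc (0 : ℝ) 1
  · exact (hM s hs).trans (le_max_left _ _)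
  · rw [dk_support hs]; simp

theorem integral_dk : ∫ s, dk s = 1 := by
  have h1 : ∫ s, dk s = ∫ s in Icc (0 : ℝ) 1, dk s := by
    rw [setIntegral_eq_integral_of_forall_compl_eq_zero]
    intro s hs; exact dk_support hs
  rw [h1, integral_Icc_eq_integral_Ioc, ← intervalIntegral.integral_of_le zero_le_one]
  unfold dk
  rw [intervalIntegral.integral_deriv_eq_sub]
  · simp
  · intro x _
    exact (Real.smoothTransition.contDiff (n := 1)).differentiable (by norm_num) x
  · exact dk_continuous.intervalIntegrable _ _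

/-- cut-off near the hyperplane of the facet `j` -/
def kk (ε : ℝ) (j : Fin m) (x : E d) : ℝ :=
  Real.smoothTransition ((P.b j - ⟪P.ν j, x⟫) / ε - 1)

/-- cut-off -/
def KK (ε : ℝ) (x : E d) : ℝ := ∏ j, kk P ε j x

/-- product of the other cut-offs -/
def KE (ε : ℝ) (i : Fin m) (x : E d) : ℝ := ∏ j ∈ Finset.univ.erase i, kk P ε j x

theorem kk_contDiff (ε : ℝ) (j : Fin m) : ContDiff ℝ ∞ (kk P ε j) := by
  unfold kk
  apply ContDiff.comp (g := Real.smoothTransition) Real.smoothTransition.contDiff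
  have : ContDiff ℝ ∞ (fun x : E d => ⟪P.ν j, x⟫) := (innerSL ℝ (P.ν j)).contDiff
  exact ((contDiff_const.sub this).div_const ε).sub contDiff_const

theorem kk_nonneg (ε : ℝ) (j : Fin m) (x : E d) : 0 ≤ kk P ε j x := Real.smoothTransition.nonneg _

theorem kk_le_one (ε : ℝ) (j : Fin m) (x : E d) : kk P ε j x ≤ 1 := Real.smoothTransition.le_one _

theorem kk_hasFDerivAt (ε : ℝ) (j : Fin m) (x : E d) :
    HasFDerivAt (kk P ε j)
      ((dk ((P.b j - ⟪P.ν j, x⟫) / ε - 1)) • (-(ε⁻¹) • innerSL ℝ (P.ν j))) x := by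
  have h1 : HasDerivAt Real.smoothTransition (dk ((P.b j - ⟪P.ν j, x⟫) / ε - 1))
      ((P.b j - ⟪P.ν j, x⟫) / ε - 1) :=
    ((Real.smoothTransition.contDiff (n := 1)).differentiable (by norm_num) _).hasDerivAt
  have h2 : HasFDerivAt (fun x : E d => (P.b j - ⟪P.ν j, x⟫) / ε - 1)
      (-(ε⁻¹) • innerSL ℝ (P.ν j)) x := by
    have h3 : HasFDerivAt (fun x : E d => ⟪P.ν j, x⟫) (innerSL ℝ (P.ν j)) x :=
      (innerSL ℝ (P.ν j)).hasFDerivAt
    have h4 := ((h3.const_sub (P.b j)).mul_const ε⁻¹).sub_const 1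
    have e1 : (fun x : E d => (P.b j - ⟪P.ν j, x⟫) / ε - 1) =
        fun x : E d => (P.b j - ⟪P.ν j, x⟫) * ε⁻¹ - 1 := by
      funext x; rw [div_eq_mul_inv]
    rw [e1]
    exact h4.congr_fderiv (by ext v; simp)
  exact h1.comp_hasFDerivAt x h2

theorem KK_contDiff (ε : ℝ) : ContDiff ℝ ∞ (KK P ε) := by
  unfold KK
  exact contDiff_prod fun j _ => kk_contDiff P ε j

theorem KE_contDiff (ε : ℝ) (i : Fin m) : ContDiff ℝ ∞ (KE P ε i) := by
  unfold KE
  exact contDiff_prod fun j _ => kk_contDiff P ε j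

theorem KK_nonneg (ε : ℝ) (x : E d) : 0 ≤ KK P ε x := Finset.prod_nonneg fun j _ => kk_nonneg P ε j x

theorem KK_le_one (ε : ℝ) (x : E d) : KK P ε x ≤ 1 :=
  Finset.prod_le_one (fun j _ => kk_nonneg P ε j x) fun j _ => kk_le_one P ε j x

theorem KE_nonneg (ε : ℝ) (i : Fin m) (x : E d) : 0 ≤ KE P ε i x :=
  Finset.prod_nonneg fun j _ => kk_nonneg P ε j x

theorem KE_le_one (ε : ℝ) (i : Fin m) (x : E d) : KE P ε i x ≤ 1 :=
  Finset.prod_le_one (fun j _ => kk_nonneg P ε j x) fun j _ => kk_le_one P ε j x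

theorem pd_KK (ε : ℝ) (e x : E d) :
    fderiv ℝ (KK P ε) x e =
      - ∑ i, ⟪P.ν i, e⟫ * (ε⁻¹ * (dk ((P.b i - ⟪P.ν i, x⟫) / ε - 1) * KE P ε i x)) := by
  have h : HasFDerivAt (KK P ε) _ x :=
    HasFDerivAt.finsetProd (u := Finset.univ) fun j _ => kk_hasFDerivAt P ε j x
  rw [h.fderiv, _root_.sum_apply, ← Finset.sum_neg_distrib]
  apply Finset.sum_congr rfl
  intro i _
  simp only [_root_.smul_apply, innerSL_apply_apply, smul_eq_mul, KE]
  ring

theorem kk_pos {ε : ℝ} (hε : 0 < ε) {j : Fin m} {x : E d} (h : kk P ε j x ≠ 0) :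
    ε < P.b j - ⟪P.ν j, x⟫ := by
  by_contra hn
  push Not at hn
  apply h
  apply Real.smoothTransition.zero_of_nonpos
  rw [sub_nonpos, div_le_one hε]; exact hn

theorem kk_one {ε : ℝ} (hε : 0 < ε) {j : Fin m} {x : E d} (h : 2 * ε ≤ P.b j - ⟪P.ν j, x⟫) :
    kk P ε j x = 1 := by
  apply Real.smoothTransition.one_of_one_le
  rw [le_sub_iff_add_le, le_div_iff₀ hε]; linarith

/-- the support of the cut-off -/
def CC (ε : ℝ) : Set (E d) := {x | ∀ j, ε ≤ P.b j - ⟪P.ν j, x⟫}

theorem isClosed_CC (ε : ℝ) : IsClosed (CC P ε) := by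
  have : CC P ε = ⋂ i, {x | ε ≤ P.b i - ⟪P.ν i, x⟫} := by ext x; simp [CC]
  rw [this]
  exact isClosed_iInter fun i => isClosed_le continuous_const (by fun_prop)

theorem CC_sub {ε : ℝ} (hε : 0 < ε) : CC P ε ⊆ P.Om := fun x hx i => by
  have := hx i; linarith

theorem tsupport_KK {ε : ℝ} (hε : 0 < ε) : tsupport (KK P ε) ⊆ CC P ε := by
  apply closure_minimal _ (isClosed_CC P ε)
  intro x hx j
  have h1 : KK P ε x ≠ 0 := hx
  exact (kk_pos P hε (Finset.prod_ne_zero_iff.1 h1 j (Finset.mem_univ j))).le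

theorem hcs_KK {ε : ℝ} (hε : 0 < ε) : HasCompactSupport (KK P ε) :=
  P.isCompact_cl.of_isClosed_subset (isClosed_tsupport _)
    ((tsupport_KK P hε).trans ((CC_sub P hε).trans P.Om_sub_cl))

theorem KK_tendsto {x : E d} (hx : x ∈ P.Om) : ∀ᶠ ε in 𝓝[>] (0 : ℝ), KK P ε x = 1 := by
  have h1 : ∀ j, ∀ᶠ ε in 𝓝[>] (0 : ℝ), kk P ε j x = 1 := by
    intro j
    have h2 : 0 < (P.b j - ⟪P.ν j, x⟫) / 2 := by have := hx j; linarith
    filter_upwards [self_mem_nhdsWithin, mem_nhdsWithin_of_mem_nhds (Iio_mem_nhds h2)] with ε h3 h4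
    apply kk_one P h3
    have : ε < (P.b j - ⟪P.ν j, x⟫) / 2 := h4
    linarith
  filter_upwards [eventually_all.2 h1] with ε hε
  unfold KK
  exact Finset.prod_eq_one fun j _ => hε j

theorem norm_gradient (f : E d → ℝ) (x : E d) : ‖gradient f x‖ = ‖fderiv ℝ f x‖ := by
  unfold gradient
  exact LinearIsometryEquiv.norm_map _ _

theorem abs_pd_le (e : E d) (f : E d → ℝ) (x : E d) : |pd e f x| ≤ ‖gradient f x‖ * ‖e‖ := by
  rw [norm_gradient]
  exact (fderiv ℝ f x).le_opNorm e

theorem pd_continuousOn {f : E d → ℝ} {U : Set (E d)} (hU : IsOpen U) (hf : ContDiffOn ℝ 1 f U)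
    (e : E d) : ContinuousOn (pd e f) U := by
  have h : ContinuousOn (fderiv ℝ f) U := hf.continuousOn_fderiv_of_isOpen hU (by norm_num)
  exact h.clm_apply continuousOn_const

/-- integrand of the facet `i` -/
def gi (ε : ℝ) (i : Fin m) (f : E d → ℝ) (x : E d) : ℝ :=
  f x * (dk ((P.b i - ⟪P.ν i, x⟫) / ε - 1) * KE P ε i x)

theorem gi_continuousOn {ε : ℝ} (i : Fin m) {f : E d → ℝ} (hf : ContinuousOn f P.cl) :
    ContinuousOn (gi P ε i f) P.cl := by
  unfold gi
  apply hf.mul
  apply Continuous.continuousOn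
  have := dk_continuous
  have h2 := (KE_contDiff P ε i).continuous
  fun_prop

theorem stepA (f : E d → ℝ) (hf : ContinuousOn f P.cl) (hf1 : ContDiffOn ℝ 1 f P.Om)
    (hg : IntegrableOn (fun x => ‖gradient f x‖) P.Om) (e : E d) {ε : ℝ} (hε : 0 < ε) :
    ∫ x in P.Om, KK P ε x * pd e f x =
      ∑ i, ⟪P.ν i, e⟫ * (ε⁻¹ * ∫ x, P.Om.indicator (gi P ε i f) x) := by
  have hO := P.isOpen_Om
  have hK1 : ContDiff ℝ 1 (KK P ε) := (KK_contDiff P ε).of_le (by norm_cast)
  set g : E d → ℝ := fun x => f x * KK P ε x with hgdef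
  have hts : tsupport g ⊆ P.Om := by
    have h1 : tsupport g ⊆ tsupport (KK P ε) := tsupport_mul_subset_right
    exact h1.trans ((tsupport_KK P hε).trans (CC_sub P hε))
  have hcs : HasCompactSupport g := (hcs_KK P hε).mul_left
  have hgC : ContDiff ℝ 1 g := by
    rw [contDiff_iff_contDiffAt]
    intro x
    by_cases hx : x ∈ P.Om
    · exact (hf1.contDiffAt (hO.mem_nhds hx)).mul hK1.contDiffAt
    · have h1 : x ∉ tsupport g := fun h => hx (hts h)
      have h2 : g =ᶠ[𝓝 x] fun _ => 0 := by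
        have := notMem_tsupport_iff_eventuallyEq.1 h1
        exact this
      exact contDiffAt_const.congr_of_eventuallyEq h2
  have hz : ∫ x, fderiv ℝ g x e = 0 := by
    have hc : Continuous fun x => fderiv ℝ g x e :=
      (hgC.continuous_fderiv (by norm_num)).clm_apply continuous_const
    have hc2 : HasCompactSupport fun x => fderiv ℝ g x e :=
      (hcs.fderiv (𝕜 := ℝ)).comp_left (g := fun L : E d →L[ℝ] ℝ => L e) (by simp)
    have h := integral_mul_fderiv_eq_neg_fderiv_mul_of_integrable (μ := (volume : Measure (E d)))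
      (f := fun _ : E d => (1 : ℝ)) (g := g) (v := e) (by simp)
      (by simpa using hc.integrable_of_hasCompactSupport hc2)
      (by simpa using hgC.continuous.integrable_of_hasCompactSupport hcs)
      (by intro x _; exact differentiableAt_const _)
      (by intro x _; exact hgC.differentiable (by norm_num) x)
    simpa using h
  have hz2 : ∫ x in P.Om, fderiv ℝ g x e = 0 := by
    rw [← hz]
    apply setIntegral_eq_integral_of_forall_compl_eq_zero
    intro x hx
    have : fderiv ℝ g x = 0 := by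
      by_contra hne
      exact hx (hts (support_fderiv_subset ℝ hne))
    rw [this]; simp
  have hi1 : IntegrableOn (fun x => f x * fderiv ℝ (KK P ε) x e) P.Om := by
    have hc : Continuous fun x => fderiv ℝ (KK P ε) x e :=
      (hK1.continuous_fderiv (by norm_num)).clm_apply continuous_const
    exact ((hf.mul hc.continuousOn).integrableOn_compact P.isCompact_cl).mono_set P.Om_sub_cl
  have hi2 : IntegrableOn (fun x => KK P ε x * pd e f x) P.Om := by
    refine Integrable.mono' (hg.mul_const ‖e‖) ?_ ?_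
    · apply ContinuousOn.aestronglyMeasurable _ P.measurableSet_Om
      exact hK1.continuous.continuousOn.mul (pd_continuousOn hO hf1 e)
    · filter_upwards with x
      rw [norm_mul, Real.norm_eq_abs, Real.norm_eq_abs, abs_of_nonneg (KK_nonneg P ε x)]
      calc KK P ε x * |pd e f x| ≤ 1 * |pd e f x| :=
            mul_le_mul_of_nonneg_right (KK_le_one P ε x) (abs_nonneg _)
        _ ≤ ‖gradient f x‖ * ‖e‖ := by rw [one_mul]; exact abs_pd_le e f x
  have hsum : ∫ x in P.Om, fderiv ℝ g x e =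
      (∫ x in P.Om, f x * fderiv ℝ (KK P ε) x e) + ∫ x in P.Om, KK P ε x * pd e f x := by
    rw [← integral_add hi1 hi2]
    apply setIntegral_congr_fun P.measurableSet_Om
    intro x hx
    have hd : DifferentiableAt ℝ f x :=
      (hf1.contDiffAt (hO.mem_nhds hx)).differentiableAt (by norm_num)
    have hd2 : DifferentiableAt ℝ (KK P ε) x := hK1.differentiable (by norm_num) x
    change fderiv ℝ (fun x => f x * KK P ε x) x e = _
    rw [fderiv_fun_mul hd hd2]
    simp only [_root_.add_apply, _root_.smul_apply, smul_eq_mul, pd]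
  have hneg : ∫ x in P.Om, f x * fderiv ℝ (KK P ε) x e =
      - ∑ i, ⟪P.ν i, e⟫ * (ε⁻¹ * ∫ x, P.Om.indicator (gi P ε i f) x) := by
    have h1 : ∀ i ∈ (Finset.univ : Finset (Fin m)),
        Integrable (fun x => ⟪P.ν i, e⟫ * (ε⁻¹ * gi P ε i f x)) (volume.restrict P.Om) := by
      intro i _
      have := ((gi_continuousOn P (ε := ε) i hf).integrableOn_compact
        (μ := (volume : Measure (E d))) P.isCompact_cl).mono_set P.Om_sub_cl
      exact (this.const_mul ε⁻¹).const_mul _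
    have h2 : ∀ i, ∫ x, P.Om.indicator (gi P ε i f) x = ∫ x in P.Om, gi P ε i f x := fun i =>
      integral_indicator P.measurableSet_Om
    simp_rw [h2]
    have h3 : ∀ i, ⟪P.ν i, e⟫ * (ε⁻¹ * ∫ x in P.Om, gi P ε i f x) =
        ∫ x in P.Om, ⟪P.ν i, e⟫ * (ε⁻¹ * gi P ε i f x) := by
      intro i; rw [integral_const_mul, integral_const_mul]
    simp_rw [h3]
    rw [← integral_finsetSum _ h1, ← integral_neg]
    congr 1
    funext x
    rw [pd_KK, mul_neg, Finset.mul_sum]
    congr 1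
    apply Finset.sum_congr rfl
    intro i _
    unfold gi; ring
  rw [hsum, hneg] at hz2
  linarith

theorem stepB (f : E d → ℝ) (hf1 : ContDiffOn ℝ 1 f P.Om)
    (hg : IntegrableOn (fun x => ‖gradient f x‖) P.Om) (e : E d) :
    Tendsto (fun ε => ∫ x in P.Om, KK P ε x * pd e f x) (𝓝[>] (0 : ℝ))
      (𝓝 (∫ x in P.Om, pd e f x)) := by
  apply tendsto_integral_filter_of_dominated_convergence (fun x => ‖gradient f x‖ * ‖e‖)
  · filter_upwards with ε
    apply ContinuousOn.aestronglyMeasurable _ P.measurableSet_Om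
    exact (KK_contDiff P ε).continuous.continuousOn.mul (pd_continuousOn P.isOpen_Om hf1 e)
  · filter_upwards with ε
    filter_upwards with x
    rw [norm_mul, Real.norm_eq_abs, Real.norm_eq_abs, abs_of_nonneg (KK_nonneg P ε x)]
    calc KK P ε x * |pd e f x| ≤ 1 * |pd e f x| :=
          mul_le_mul_of_nonneg_right (KK_le_one P ε x) (abs_nonneg _)
      _ ≤ ‖gradient f x‖ * ‖e‖ := by rw [one_mul]; exact abs_pd_le e f x
  · exact hg.mul_const ‖e‖
  · filter_upwards [ae_restrict_mem P.measurableSet_Om] with x hx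
    apply tendsto_nhds_of_eventually_eq
    filter_upwards [KK_tendsto P hx] with ε h
    rw [h, one_mul]

theorem stepC (f : E d → ℝ) (hf : ContinuousOn f P.cl) (i : Fin m) :
    Tendsto (fun ε => ε⁻¹ * ∫ x, P.Om.indicator (gi P ε i f) x) (𝓝[>] (0 : ℝ))
      (𝓝 (P.fi i f)) := by
  set n := P.ν i with hn
  have hn1 : ‖n‖ = 1 := P.unit i
  have hnn : ⟪n, n⟫ = 1 := by rw [real_inner_self_eq_norm_sq, hn1]; norm_num
  -- the two basic quantities
  have hin : ∀ (y : (ℝ ∙ n)ᗮ) (t : ℝ), ⟪n, (y : E d) + t • n⟫ = t := by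
    intro y t
    have hy := Submodule.mem_orthogonal_singleton_iff_inner_right.1 y.2
    rw [inner_add_right, inner_smul_right, hy, hnn]; ring
  let F : ℝ → (ℝ ∙ n)ᗮ × ℝ → ℝ := fun ε p =>
    P.Om.indicator (gi P ε i f) ((p.1 : E d) + (P.b i - ε * (p.2 + 1)) • n)
  let F0 : (ℝ ∙ n)ᗮ × ℝ → ℝ := fun p => (P.Sig i).indicator f ((p.1 : E d) + P.b i • n) * dk p.2
  have hF0 : ∫ p, F0 p = P.fi i f := by
    change ∫ p : (ℝ ∙ n)ᗮ × ℝ, (P.Sig i).indicator f ((p.1 : E d) + P.b i • n) * dk p.2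
      ∂((volume : Measure (ℝ ∙ n)ᗮ).prod (volume : Measure ℝ)) = _
    rw [integral_prod_mul (fun y : (ℝ ∙ n)ᗮ => (P.Sig i).indicator f ((y : E d) + P.b i • n)) dk,
      integral_dk, mul_one, fi_eq]
  have hFε : ∀ᶠ ε in 𝓝[>] (0 : ℝ), ∫ p, F ε p = ε⁻¹ * ∫ x, P.Om.indicator (gi P ε i f) x := by
    filter_upwards [self_mem_nhdsWithin] with ε hε
    exact phi_int n hn1 (P.b i) hε (P.Om.indicator (gi P ε i f))
  rw [← hF0]
  refine Tendsto.congr' hFε ?_
  -- bounds
  obtain ⟨M, hM⟩ := P.isCompact_cl.exists_bound_of_continuousOn hf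
  obtain ⟨K0, hK0, hK⟩ := dk_bdd
  obtain ⟨R, hR⟩ := P.isCompact_cl.isBounded.subset_closedBall (0 : E d)
  have hM0 : 0 ≤ M := by
    obtain ⟨x, hx⟩ := P.nonempty_Om
    exact (norm_nonneg _).trans (hM x (P.Om_sub_cl hx))
  have hdk : ∀ {ε : ℝ}, 0 < ε → ∀ (p : (ℝ ∙ n)ᗮ × ℝ),
      dk ((P.b i - ⟪P.ν i, (p.1 : E d) + (P.b i - ε * (p.2 + 1)) • n⟫) / ε - 1) = dk p.2 := by
    intro ε hε p
    rw [← hn, hin]
    congr 1
    field_simp
    ring
  let S : Set ((ℝ ∙ n)ᗮ × ℝ) := closedBall (0 : (ℝ ∙ n)ᗮ) R ×ˢ Icc (0 : ℝ) 1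
  have hS : IsCompact S := (isCompact_closedBall _ _).prod isCompact_Icc
  have hSm : MeasurableSet S := hS.isClosed.measurableSet
  have hzero : ∀ {ε : ℝ}, 0 < ε → ∀ p : (ℝ ∙ n)ᗮ × ℝ, p.2 ∉ Icc (0 : ℝ) 1 → F ε p = 0 := by
    intro ε hε p hp
    change P.Om.indicator (gi P ε i f) ((p.1 : E d) + (P.b i - ε * (p.2 + 1)) • n) = 0
    by_cases hO : (p.1 : E d) + (P.b i - ε * (p.2 + 1)) • n ∈ P.Om
    · rw [indicator_of_mem hO]
      unfold gi
      rw [hdk hε p, dk_support hp]; ring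
    · rw [indicator_of_notMem hO]
  apply tendsto_integral_filter_of_dominated_convergence (S.indicator fun _ => M * K0)
  · -- measurability
    filter_upwards [self_mem_nhdsWithin] with ε hε
    have h1 : AEStronglyMeasurable (P.Om.indicator (gi P ε i f)) (volume : Measure (E d)) := by
      rw [aestronglyMeasurable_indicator_iff P.measurableSet_Om]
      exact ((gi_continuousOn P i hf).mono P.Om_sub_cl).aestronglyMeasurable P.measurableSet_Om
    exact (h1.smul_measure _).comp_measurePreserving (phi_mp n hn1 (P.b i) hε)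
  · -- domination
    filter_upwards [self_mem_nhdsWithin] with ε hε
    filter_upwards with p
    by_cases hs : p.2 ∈ Icc (0 : ℝ) 1
    · by_cases hO : (p.1 : E d) + (P.b i - ε * (p.2 + 1)) • n ∈ P.Om
      · have hpS : p ∈ S := by
          refine ⟨?_, hs⟩
          rw [mem_closedBall, dist_zero_right]
          have hx : ‖(p.1 : E d) + (P.b i - ε * (p.2 + 1)) • n‖ ≤ R := by
            have := hR (P.Om_sub_cl hO)
            rwa [mem_closedBall, dist_zero_right] at this
          refine le_trans ?_ hx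
          have h2 : ⟪(p.1 : E d), (P.b i - ε * (p.2 + 1)) • n⟫ = 0 := by
            have hy := Submodule.mem_orthogonal_singleton_iff_inner_left.1 p.1.2
            rw [inner_smul_right, hy, mul_zero]
          have h3 := norm_add_sq_eq_norm_sq_add_norm_sq_of_inner_eq_zero _ _ h2
          have h4 : ‖(p.1 : E d)‖ ^ 2 ≤ ‖(p.1 : E d) + (P.b i - ε * (p.2 + 1)) • n‖ ^ 2 := by
            nlinarith [norm_nonneg ((P.b i - ε * (p.2 + 1)) • n)]
          exact (sq_le_sq₀ (norm_nonneg _) (norm_nonneg _)).1 h4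
        rw [indicator_of_mem hpS]
        change ‖P.Om.indicator (gi P ε i f) ((p.1 : E d) + (P.b i - ε * (p.2 + 1)) • n)‖ ≤ _
        rw [indicator_of_mem hO]
        unfold gi
        rw [norm_mul, norm_mul]
        have h1 := hM _ (P.Om_sub_cl hO)
        have h2 := hK ((P.b i - ⟪P.ν i, (p.1 : E d) + (P.b i - ε * (p.2 + 1)) • n⟫) / ε - 1)
        have h3 : ‖KE P ε i ((p.1 : E d) + (P.b i - ε * (p.2 + 1)) • n)‖ ≤ 1 := by
          rw [Real.norm_eq_abs, abs_of_nonneg (KE_nonneg P ε i _)]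
          exact KE_le_one P ε i _
        calc _ ≤ M * (K0 * 1) := by
              apply mul_le_mul h1 _ (by positivity) hM0
              exact mul_le_mul h2 h3 (norm_nonneg _) hK0
          _ = M * K0 := by ring
      · change ‖P.Om.indicator (gi P ε i f) ((p.1 : E d) + (P.b i - ε * (p.2 + 1)) • n)‖ ≤ _
        rw [indicator_of_notMem hO, norm_zero]
        exact indicator_nonneg (fun _ _ => by positivity) _
    · rw [hzero hε p hs, norm_zero]
      exact indicator_nonneg (fun _ _ => by positivity) _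
  · rw [integrable_indicator_iff hSm]
    exact integrableOn_const (hS.measure_lt_top.ne)
  · -- pointwise limit
    have hnull : ∀ᵐ y : (ℝ ∙ n)ᗮ, ∀ j, j ≠ i → (y : E d) + P.b i • n ∉ P.Sig i ∩ P.Sig j := by
      rw [ae_all_iff]
      intro j
      by_cases hj : j = i
      · filter_upwards with y h; exact absurd hj h
      · have h := (Sig_inter P i j (Ne.symm hj)).1
        have h2 : ∀ᵐ y : (ℝ ∙ n)ᗮ, (y : E d) + P.b i • n ∉ P.Sig i ∩ P.Sig j := by
          rw [ae_iff]
          simpa using h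
        filter_upwards [h2] with y hy _ using hy
    have hnull2 : ∀ᵐ p : (ℝ ∙ n)ᗮ × ℝ, ∀ j, j ≠ i →
        (p.1 : E d) + P.b i • n ∉ P.Sig i ∩ P.Sig j :=
      Measure.quasiMeasurePreserving_fst.ae hnull
    filter_upwards [hnull2] with p hp
    by_cases hs : p.2 ∈ Icc (0 : ℝ) 1
    swap
    · have : F0 p = 0 := by
        change (P.Sig i).indicator f ((p.1 : E d) + P.b i • n) * dk p.2 = 0
        rw [dk_support hs, mul_zero]
      rw [this]
      apply tendsto_nhds_of_eventually_eq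
      filter_upwards [self_mem_nhdsWithin] with ε hε
      exact hzero hε p hs
    set x0 : E d := (p.1 : E d) + P.b i • n with hx0
    have hxε : ∀ ε : ℝ, (p.1 : E d) + (P.b i - ε * (p.2 + 1)) • n = x0 - (ε * (p.2 + 1)) • n := by
      intro ε; rw [hx0, sub_smul]; abel
    have hcont : Tendsto (fun ε : ℝ => (p.1 : E d) + (P.b i - ε * (p.2 + 1)) • n) (𝓝[>] (0 : ℝ))
        (𝓝 x0) := by
      have hc : Continuous fun ε : ℝ => (p.1 : E d) + (P.b i - ε * (p.2 + 1)) • n := by fun_prop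
      have h0 := hc.tendsto 0
      simp only [zero_mul, sub_zero] at h0
      exact h0.mono_left nhdsWithin_le_nhds
    have hineq : ∀ j, Tendsto (fun ε : ℝ => P.b j -
        ⟪P.ν j, (p.1 : E d) + (P.b i - ε * (p.2 + 1)) • n⟫) (𝓝[>] (0 : ℝ))
        (𝓝 (P.b j - ⟪P.ν j, x0⟫)) := by
      intro j
      exact tendsto_const_nhds.sub (tendsto_const_nhds.inner hcont)
    by_cases hx : x0 ∈ P.Sig i
    · -- regular point of the facet
      have hlt : ∀ j, j ≠ i → 0 < P.b j - ⟪P.ν j, x0⟫ := by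
        intro j hj
        have h1 := hx.1 j
        have h2 : ⟪P.ν j, x0⟫ ≠ P.b j := fun h => hp j hj ⟨hx, hx.1, h⟩
        have := lt_of_le_of_ne h1 h2
        linarith
      have hev : ∀ᶠ ε in 𝓝[>] (0 : ℝ), ∀ j, j ≠ i →
          2 * ε ≤ P.b j - ⟪P.ν j, (p.1 : E d) + (P.b i - ε * (p.2 + 1)) • n⟫ := by
        rw [eventually_all]
        intro j
        by_cases hj : j = i
        · filter_upwards with ε h; exact absurd hj h
        · have h1 : ∀ᶠ ε in 𝓝[>] (0 : ℝ), (P.b j - ⟪P.ν j, x0⟫) / 2 <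
              P.b j - ⟪P.ν j, (p.1 : E d) + (P.b i - ε * (p.2 + 1)) • n⟫ :=
            (hineq j).eventually (lt_mem_nhds (by have := hlt j hj; linarith))
          have h2 : 0 < (P.b j - ⟪P.ν j, x0⟫) / 4 := by have := hlt j hj; linarith
          filter_upwards [h1, mem_nhdsWithin_of_mem_nhds (Iio_mem_nhds h2)] with ε h3 h4 _
          have h5 : ε < (P.b j - ⟪P.ν j, x0⟫) / 4 := h4
          linarith
      have hOm : ∀ᶠ ε in 𝓝[>] (0 : ℝ), (p.1 : E d) + (P.b i - ε * (p.2 + 1)) • n ∈ P.Om := by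
        filter_upwards [hev, self_mem_nhdsWithin] with ε h1 h2
        have h2' : 0 < ε := h2
        intro j
        by_cases hj : j = i
        · subst hj
          rw [← hn, hin]
          have : 0 < ε * (p.2 + 1) := mul_pos h2' (by have := hs.1; linarith)
          linarith
        · have := h1 j hj
          linarith
      have hKE : ∀ᶠ ε in 𝓝[>] (0 : ℝ),
          KE P ε i ((p.1 : E d) + (P.b i - ε * (p.2 + 1)) • n) = 1 := by
        filter_upwards [hev, self_mem_nhdsWithin] with ε h1 h2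
        unfold KE
        apply Finset.prod_eq_one
        intro j hj
        exact kk_one P h2 (h1 j (Finset.ne_of_mem_erase hj))
      have hF0p : F0 p = f x0 * dk p.2 := by
        change (P.Sig i).indicator f x0 * dk p.2 = _
        rw [indicator_of_mem hx]
      rw [hF0p]
      have hev2 : (fun ε => f ((p.1 : E d) + (P.b i - ε * (p.2 + 1)) • n) * dk p.2)
          =ᶠ[𝓝[>] (0 : ℝ)] fun ε => F ε p := by
        filter_upwards [hOm, hKE, self_mem_nhdsWithin] with ε h1 h2 h3
        change _ = P.Om.indicator (gi P ε i f) ((p.1 : E d) + (P.b i - ε * (p.2 + 1)) • n)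
        rw [indicator_of_mem h1]
        unfold gi
        rw [h2, hdk h3 p, mul_one]
      refine Tendsto.congr' hev2 ?_
      refine Tendsto.mul_const _ ?_
      have h1 : Tendsto f (𝓝[P.cl] x0) (𝓝 (f x0)) := hf x0 hx.1
      refine h1.comp ?_
      rw [tendsto_nhdsWithin_iff]
      refine ⟨hcont, ?_⟩
      filter_upwards [hOm] with ε h using P.Om_sub_cl h
    · -- outside of the facet
      have hx1 : x0 ∉ P.cl := fun h => hx ⟨h, hin p.1 (P.b i)⟩
      have hF0p : F0 p = 0 := by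
        change (P.Sig i).indicator f x0 * dk p.2 = 0
        rw [indicator_of_notMem hx, zero_mul]
      rw [hF0p]
      have h1 : ∀ᶠ z in 𝓝 x0, z ∉ P.cl := P.isClosed_cl.isOpen_compl.mem_nhds hx1
      apply tendsto_nhds_of_eventually_eq
      filter_upwards [hcont.eventually h1] with ε h2
      change P.Om.indicator (gi P ε i f) ((p.1 : E d) + (P.b i - ε * (p.2 + 1)) • n) = 0
      rw [indicator_of_notMem]
      exact fun h => h2 (P.Om_sub_cl h)

/-- **S2.** Gauss-Green -/
theorem gg (f : E d → ℝ) (hf : ContinuousOn f P.cl) (hf1 : ContDiffOn ℝ 1 f P.Om)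
    (hg : IntegrableOn (fun x => ‖gradient f x‖) P.Om) (e : E d) :
    ∫ x in P.Om, pd e f x = ∑ i, ⟪P.ν i, e⟫ * P.fi i f := by
  have h1 := stepB P f hf1 hg e
  have h2 : Tendsto (fun ε => ∑ i, ⟪P.ν i, e⟫ * (ε⁻¹ * ∫ x, P.Om.indicator (gi P ε i f) x))
      (𝓝[>] (0 : ℝ)) (𝓝 (∑ i, ⟪P.ν i, e⟫ * P.fi i f)) :=
    tendsto_finsetSum _ fun i _ => (stepC P f hf i).const_mul _
  refine tendsto_nhds_unique h1 (h2.congr' ?_)
  filter_upwards [self_mem_nhdsWithin] with ε hε
  exact (stepA P f hf hf1 hg e hε).symm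

end

end Pool.Agent.Lib_helper82.Robin
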