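import Pool.Agent.Lib_helper13.Robin.Geo

/-!
# Robin project, block S0: Fubini in the direction of a unit vector
-/

namespace Pool.Agent.Lib_helper82.Robin

open Pool.Agent.Lib_helper13.Robin
open MeasureTheory Set Metric Filter Topology
open scoped RealInnerProductSpace ContDiff

noncomputable section

variable {d m : ℕ} (P : PD d m)

/-- **S0.** Fubini in the direction of a unit vector. -/
theorem mp_hyper (n : E d) (hn : ‖n‖ = 1) :
    MeasurePreserving (fun p : (ℝ ∙ n)ᗮ × ℝ => ((p.1 : E d) + p.2 • n)) volume volume := by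
  have h1 : MeasurePreserving ((ℝ ∙ n).measurableEquivProd (0 : E d)).symm
      (volume : Measure ((ℝ ∙ n) × (ℝ ∙ n)ᗮ)) (volume : Measure (E d)) := by
    have := ((ℝ ∙ n).measurePreserving_measurableEquivProd (0 : E d)).symm
    rwa [InnerProductSpace.euclideanHausdorffMeasure_eq_volume] at this
  have h2 : MeasurePreserving (LinearIsometryEquiv.toSpanUnitSingleton (𝕜 := ℝ) n hn)
      (volume : Measure ℝ) (volume : Measure (ℝ ∙ n)) :=
    LinearIsometryEquiv.measurePreserving _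
  have h3 : MeasurePreserving
      (Prod.map (LinearIsometryEquiv.toSpanUnitSingleton (𝕜 := ℝ) n hn)
        (id : (ℝ ∙ n)ᗮ → (ℝ ∙ n)ᗮ))
      ((volume : Measure ℝ).prod (volume : Measure (ℝ ∙ n)ᗮ))
      ((volume : Measure (ℝ ∙ n)).prod (volume : Measure (ℝ ∙ n)ᗮ)) :=
    h2.prod (MeasurePreserving.id _)
  have h4 : MeasurePreserving (Prod.swap : (ℝ ∙ n)ᗮ × ℝ → ℝ × (ℝ ∙ n)ᗮ)
      ((volume : Measure (ℝ ∙ n)ᗮ).prod (volume : Measure ℝ))
      ((volume : Measure ℝ).prod (volume : Measure (ℝ ∙ n)ᗮ)) := Measure.measurePreserving_swap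
  have h5 := h1.comp (h3.comp h4)
  have e : (fun p : (ℝ ∙ n)ᗮ × ℝ => ((p.1 : E d) + p.2 • n)) =
      ((ℝ ∙ n).measurableEquivProd (0 : E d)).symm ∘
        (Prod.map (LinearIsometryEquiv.toSpanUnitSingleton (𝕜 := ℝ) n hn)
          (id : (ℝ ∙ n)ᗮ → (ℝ ∙ n)ᗮ) ∘ Prod.swap) := by
    ext1 p
    simp [add_comm]
  rw [e]
  exact h5

end

end Pool.Agent.Lib_helper82.Robin
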