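import Pool.Agent.Lib_helper82.Robin.S2

/-!
# Robin project, block TR: trace inequality
-/

namespace Pool.Agent.Lib_helper82.Robin

open Pool.Agent.Lib_helper13.Robin
open MeasureTheory Set Metric Filter Topology
open scoped RealInnerProductSpace ContDiff

noncomputable section

variable {d m : ℕ} (P : PD d m)

theorem sum_bv_inner (u v : E d) : ∑ j, ⟪u, bv j⟫ * ⟪bv j, v⟫ = ⟪u, v⟫ := by
  have h := (EuclideanSpace.basisFun (Fin d) ℝ).sum_inner_mul_inner u v
  simpa only [EuclideanSpace.basisFun_apply] using h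

theorem sum_bv_smul (v : E d) : ∑ j, ⟪bv j, v⟫ • (bv j : E d) = v := by
  have h := (EuclideanSpace.basisFun (Fin d) ℝ).sum_repr' v
  simpa only [EuclideanSpace.basisFun_apply] using h

theorem norm_bv (j : Fin d) : ‖(bv j : E d)‖ = 1 := by simp [bv]

theorem exists_r0 {x0 : E d} (hx : x0 ∈ P.Om) : ∃ r > 0, ∀ i, r ≤ P.b i - ⟪P.ν i, x0⟫ := by
  have h1 : ∀ᶠ r in 𝓝[>] (0 : ℝ), ∀ i, r ≤ P.b i - ⟪P.ν i, x0⟫ := by
    rw [eventually_all]
    intro i
    have h2 : 0 < P.b i - ⟪P.ν i, x0⟫ := by have := hx i; linarith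
    filter_upwards [mem_nhdsWithin_of_mem_nhds (Iio_mem_nhds h2)] with r hr
    exact le_of_lt hr
  obtain ⟨r, h2, h3⟩ := (h1.and self_mem_nhdsWithin).exists
  exact ⟨r, h3, h2⟩

theorem continuousOn_gradient {f : E d → ℝ} {U : Set (E d)} (hU : IsOpen U)
    (hf : ContDiffOn ℝ 1 f U) : ContinuousOn (gradient f) U := by
  have h : ContinuousOn (fderiv ℝ f) U := hf.continuousOn_fderiv_of_isOpen hU (by norm_num)
  unfold gradient
  exact (LinearIsometryEquiv.continuous _).comp_continuousOn h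

theorem int_grad_of_sq {f : E d → ℝ} (hf : ContDiffOn ℝ 1 f P.Om)
    (h : IntegrableOn (fun x => ‖gradient f x‖ ^ 2) P.Om) :
    IntegrableOn (fun x => ‖gradient f x‖) P.Om := by
  refine Integrable.mono' ((integrable_const (1 : ℝ)).add h) ?_ ?_
  · exact (continuousOn_gradient P.isOpen_Om hf).norm.aestronglyMeasurable P.measurableSet_Om
  · filter_upwards with x
    simp only [Pi.add_apply, norm_norm]
    nlinarith [sq_nonneg (‖gradient f x‖ - 1), norm_nonneg (gradient f x)]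

/-- **TR.** trace inequality -/
theorem trace_ineq : ∃ C > 0, ∀ f : E d → ℝ, ContinuousOn f P.cl → ContDiffOn ℝ 1 f P.Om →
    IntegrableOn (fun x => ‖gradient f x‖ ^ 2) P.Om →
    P.bdI (fun x => f x ^ 2) ≤
      C * ((∫ x in P.Om, f x ^ 2) + ∫ x in P.Om, ‖gradient f x‖ ^ 2) := by
  obtain ⟨x0, hx0⟩ := P.nonempty_Om
  obtain ⟨r0, hr0, hr⟩ := exists_r0 P hx0
  obtain ⟨R', hR'⟩ := P.isCompact_cl.isBounded.subset_closedBall x0
  set R := max R' 0 with hRdef
  have hR0 : 0 ≤ R := le_max_right _ _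
  have hR : ∀ x ∈ P.cl, ‖x - x0‖ ≤ R := by
    intro x hx
    have := hR' hx
    rw [mem_closedBall, dist_eq_norm] at this
    exact this.trans (le_max_left _ _)
  have hd : (0 : ℝ) < d := by
    have := P.dim
    exact_mod_cast (by omega : 0 < d)
  refine ⟨(d + R) / r0, by positivity, ?_⟩
  intro f hf hf1 hf2
  have hO := P.isOpen_Om
  obtain ⟨M, hM⟩ := P.isCompact_cl.exists_bound_of_continuousOn hf
  have hfg : IntegrableOn (fun x => ‖gradient f x‖) P.Om := int_grad_of_sq P hf1 hf2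
  -- the test functions
  let g : Fin d → E d → ℝ := fun j x => f x ^ 2 * ⟪bv j, x - x0⟫
  have hgc : ∀ j, ContinuousOn (g j) P.cl := by
    intro j
    exact (hf.pow 2).mul (Continuous.continuousOn (by fun_prop))
  have hlin : ∀ j, ContDiff ℝ 1 (fun x : E d => ⟪bv j, x - x0⟫) := by
    intro j
    exact ContDiff.inner ℝ contDiff_const (contDiff_id.sub contDiff_const)
  have hg1 : ∀ j, ContDiffOn ℝ 1 (g j) P.Om := by
    intro j
    exact (hf1.pow 2).mul (hlin j).contDiffOn
  have hfd : ∀ j, ∀ x ∈ P.Om, HasFDerivAt (g j)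
      (f x ^ 2 • innerSL ℝ (bv j) + ⟪bv j, x - x0⟫ • ((2 * f x) • fderiv ℝ f x)) x := by
    intro j x hx
    have h1 : HasFDerivAt f (fderiv ℝ f x) x :=
      ((hf1.contDiffAt (hO.mem_nhds hx)).differentiableAt (by norm_num)).hasFDerivAt
    have h2 : HasFDerivAt (fun x => f x ^ 2) ((2 * f x) • fderiv ℝ f x) x := by
      have := h1.pow 2
      simpa using this
    have h3 : HasFDerivAt (fun x : E d => ⟪bv j, x - x0⟫) (innerSL ℝ (bv j)) x := by
      have h4 : HasFDerivAt (fun x : E d => ⟪bv j, x⟫) (innerSL ℝ (bv j)) x :=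
        (innerSL ℝ (bv j)).hasFDerivAt
      have h5 := h4.sub_const ⟪bv j, x0⟫
      have e : (fun x : E d => ⟪bv j, x - x0⟫) = fun x : E d => ⟪bv j, x⟫ - ⟪bv j, x0⟫ := by
        funext x; rw [inner_sub_right]
      rw [e]; exact h5
    exact h2.mul h3
  have hgg : ∀ j, IntegrableOn (fun x => ‖gradient (g j) x‖) P.Om := by
    intro j
    refine Integrable.mono' ((integrable_const (M ^ 2)).add (hfg.const_mul (R * (2 * M)))) ?_ ?_
    · exact (continuousOn_gradient hO (hg1 j)).norm.aestronglyMeasurable P.measurableSet_Om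
    · filter_upwards [ae_restrict_mem P.measurableSet_Om] with x hx
      rw [norm_norm, norm_gradient, (hfd j x hx).fderiv]
      have hfx : |f x| ≤ M := hM x (P.Om_sub_cl hx)
      have hM0 : 0 ≤ M := (abs_nonneg _).trans hfx
      have hxx : |⟪bv j, x - x0⟫| ≤ R := by
        calc |⟪bv j, x - x0⟫| ≤ ‖(bv j : E d)‖ * ‖x - x0‖ := abs_real_inner_le_norm _ _
          _ ≤ R := by rw [norm_bv, one_mul]; exact hR x (P.Om_sub_cl hx)
      have h1 : ‖innerSL ℝ (bv j : E d)‖ = 1 := by rw [innerSL_apply_norm, norm_bv]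
      calc ‖f x ^ 2 • innerSL ℝ (bv j) + ⟪bv j, x - x0⟫ • ((2 * f x) • fderiv ℝ f x)‖
          ≤ ‖f x ^ 2 • innerSL ℝ (bv j : E d)‖ + ‖⟪bv j, x - x0⟫ • ((2 * f x) • fderiv ℝ f x)‖ :=
            norm_add_le _ _
        _ = |f x| ^ 2 + |⟪bv j, x - x0⟫| * (2 * |f x| * ‖fderiv ℝ f x‖) := by
            rw [norm_smul, norm_smul, norm_smul, h1]
            simp only [norm_pow, Real.norm_eq_abs, norm_mul, abs_mul, abs_two, mul_one]
        _ ≤ M ^ 2 + R * (2 * M * ‖fderiv ℝ f x‖) := by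
            gcongr
        _ = _ := by
            simp only [Pi.add_apply]
            rw [norm_gradient]; ring
  -- Gauss-Green for every component
  have hG : ∀ j, ∫ x in P.Om, pd (bv j) (g j) x = ∑ i, ⟪P.ν i, bv j⟫ * P.fi i (g j) := fun j =>
    gg P (g j) (hgc j) (hg1 j) (hgg j) (bv j)
  have hpdint : ∀ j, IntegrableOn (pd (bv j) (g j)) P.Om := by
    intro j
    refine Integrable.mono' ((hgg j).mul_const ‖(bv j : E d)‖) ?_ ?_
    · exact (pd_continuousOn hO (hg1 j) _).aestronglyMeasurable P.measurableSet_Om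
    · filter_upwards with x
      exact abs_pd_le _ _ _
  have hfi : ∀ (i : Fin m) (h : E d → ℝ), ContinuousOn h P.cl →
      IntegrableOn h (P.Sig i) (μHE[d - 1]) := by
    intro i h hh
    exact hh.integrableOn_of_subset_isCompact P.isCompact_cl
      (isClosed_Sig P i).measurableSet (Sig_sub_cl P i) (Sig_lt_top P i).ne
  have hf2c : ContinuousOn (fun x => f x ^ 2) P.cl := hf.pow 2
  -- boundary side
  have hbd : ∑ j, ∑ i, ⟪P.ν i, bv j⟫ * P.fi i (g j) =
      ∑ i, (P.b i - ⟪P.ν i, x0⟫) * P.fi i (fun x => f x ^ 2) := by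
    rw [Finset.sum_comm]
    apply Finset.sum_congr rfl
    intro i _
    have h1 : ∀ j, ⟪P.ν i, bv j⟫ * P.fi i (g j) =
        ∫ x in P.Sig i, ⟪P.ν i, bv j⟫ * g j x ∂(μHE[d - 1]) := by
      intro j; unfold PD.fi; rw [integral_const_mul]
    simp_rw [h1]
    rw [← integral_finsetSum]
    · unfold PD.fi
      rw [← integral_const_mul]
      apply setIntegral_congr_fun (isClosed_Sig P i).measurableSet
      intro x hx
      change ∑ j, ⟪P.ν i, bv j⟫ * (f x ^ 2 * ⟪bv j, x - x0⟫) = (P.b i - ⟪P.ν i, x0⟫) * f x ^ 2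
      have h2 : ∀ j, ⟪P.ν i, bv j⟫ * (f x ^ 2 * ⟪bv j, x - x0⟫) =
          f x ^ 2 * (⟪P.ν i, bv j⟫ * ⟪bv j, x - x0⟫) := fun j => by ring
      simp_rw [h2]
      rw [← Finset.mul_sum, sum_bv_inner, inner_sub_right, hx.2]; ring
    · intro j _
      exact (hfi i (g j) (hgc j)).const_mul _
  -- interior side
  have hint : ∑ j, ∫ x in P.Om, pd (bv j) (g j) x ≤
      (d + R) * ((∫ x in P.Om, f x ^ 2) + ∫ x in P.Om, ‖gradient f x‖ ^ 2) := by
    rw [← integral_finsetSum _ (fun j _ => hpdint j)]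
    have hf2i : IntegrableOn (fun x => f x ^ 2) P.Om :=
      (hf2c.integrableOn_compact P.isCompact_cl).mono_set P.Om_sub_cl
    rw [← integral_add hf2i hf2, ← integral_const_mul]
    apply setIntegral_mono_on
    · exact integrable_finsetSum _ fun j _ => hpdint j
    · exact (hf2i.add hf2).const_mul _
    · exact P.measurableSet_Om
    · intro x hx
      have h1 : ∀ j, pd (bv j) (g j) x =
          f x ^ 2 + (2 * f x) * fderiv ℝ f x (⟪bv j, x - x0⟫ • bv j) := by
        intro j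
        unfold pd
        rw [(hfd j x hx).fderiv]
        simp only [_root_.add_apply, _root_.smul_apply, smul_eq_mul, innerSL_apply_apply,
          map_smul]
        rw [real_inner_self_eq_norm_sq, norm_bv]; ring
      simp_rw [h1]
      rw [Finset.sum_add_distrib, Finset.sum_const, Finset.card_univ, Fintype.card_fin,
        nsmul_eq_mul, ← Finset.mul_sum, ← map_sum, sum_bv_smul]
      have h2 : |fderiv ℝ f x (x - x0)| ≤ ‖gradient f x‖ * R := by
        rw [norm_gradient]
        calc |fderiv ℝ f x (x - x0)| ≤ ‖fderiv ℝ f x‖ * ‖x - x0‖ := (fderiv ℝ f x).le_opNorm _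
          _ ≤ ‖fderiv ℝ f x‖ * R := by
            exact mul_le_mul_of_nonneg_left (hR x (P.Om_sub_cl hx)) (norm_nonneg _)
      have h3 : 2 * f x * fderiv ℝ f x (x - x0) ≤ R * (f x ^ 2 + ‖gradient f x‖ ^ 2) := by
        calc 2 * f x * fderiv ℝ f x (x - x0) ≤ |2 * f x * fderiv ℝ f x (x - x0)| := le_abs_self _
          _ = 2 * |f x| * |fderiv ℝ f x (x - x0)| := by rw [abs_mul, abs_mul, abs_two]
          _ ≤ 2 * |f x| * (‖gradient f x‖ * R) := by gcongr
          _ = R * (2 * |f x| * ‖gradient f x‖) := by ring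
          _ ≤ R * (f x ^ 2 + ‖gradient f x‖ ^ 2) := by
            apply mul_le_mul_of_nonneg_left _ hR0
            rw [← sq_abs (f x)]
            nlinarith [sq_nonneg (|f x| - ‖gradient f x‖)]
      nlinarith [sq_nonneg (‖gradient f x‖)]
  have hlow : r0 * P.bdI (fun x => f x ^ 2) ≤
      ∑ i, (P.b i - ⟪P.ν i, x0⟫) * P.fi i (fun x => f x ^ 2) := by
    rw [bdI_eq P _ hf2c, Finset.mul_sum]
    apply Finset.sum_le_sum
    intro i _
    apply mul_le_mul_of_nonneg_right (hr i)
    unfold PD.fi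
    exact integral_nonneg fun x => sq_nonneg _
  have hfin : r0 * P.bdI (fun x => f x ^ 2) ≤
      (d + R) * ((∫ x in P.Om, f x ^ 2) + ∫ x in P.Om, ‖gradient f x‖ ^ 2) := by
    refine hlow.trans ?_
    rw [← hbd]
    simp_rw [← hG]
    exact hint
  rw [div_mul_eq_mul_div, le_div_iff₀ hr0, mul_comm]
  exact hfin

end

end Pool.Agent.Lib_helper82.Robin
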